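import Pool.Agent.Helper716_Lang.Core

/-!
# Lang's conjecture of 1953, for systems of forms

A field `K` of transcendence degree `i` over a real closed field `R`, in which `-1` is a sum of
squares, is a `C_i`-field: every system of forms of degrees `d_1, ..., d_r ≥ 1` in
`N > d_1 ^ i + ... + d_r ^ i` variables over `K` has a common nontrivial zero in `K`.
-/

set_option autoImplicit false

namespace Pool.Agent.Results.MP_c7dfba_nt.LangSystems

/-- Nonreal fields of transcendence degree `i` over real closed fields are `C_i`-fields. -/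
theorem result (R K : Type) [Field R] [LinearOrder R] [IsStrictOrderedRing R] [IsRealClosed R]
    [Field K] [Algebra R K] (i : ℕ)
    (htr : ∃ x : Fin i → K, IsTranscendenceBasis R x)
    (hnonreal : ∃ (q : ℕ) (g : Fin q → K), ∑ l, g l ^ 2 = -1)
    (r N : ℕ) (d : Fin r → ℕ) (hd : ∀ j, 1 ≤ d j) (hN : ∑ j, d j ^ i < N)
    (f : Fin r → MvPolynomial (Fin N) K) (hf : ∀ j, (f j).IsHomogeneous (d j)) :
    ∃ a : Fin N → K, a ≠ 0 ∧ ∀ j, MvPolynomial.eval a (f j) = 0 := by
  obtain ⟨x, hx⟩ := htr
  obtain ⟨q, g, hg⟩ := hnonreal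
  exact Pool.Agent.Helper716_Lang.lang hx g hg d hd hN f hf

end Pool.Agent.Results.MP_c7dfba_nt.LangSystems
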